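import Pool.Agent.H923R2.FP.Stubs

/-! Task MID: reduced words of `g` and of `g U_m(X) g'`. -/

set_option autoImplicit false

noncomputable section

namespace Pool.Agent.H923R2.FP.T_MID

open Pool.Agent.H923R2.FP

/-- lists of syllables -/
abbrev SL : Type := List (Bool × ℤ)

/-- proper lists of syllables -/
def Syl (L : SL) : Prop := L.IsChain (fun x y => x.1 ≠ y.1) ∧ ∀ x ∈ L, x.2 ≠ 0

/-- the group element -/
def el (L : SL) : F2 := (L.map fun p => FreeGroup.of p.1 ^ p.2).prod

/-- the length -/
def sz (L : SL) : ℕ := (L.map fun p => p.2.natAbs).sum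

theorem el_append (L L' : SL) : el (L ++ L') = el L * el L' := by
  simp [el]

theorem sz_append (L L' : SL) : sz (L ++ L') = sz L + sz L' := by
  simp [sz]

theorem sz_mem (L : SL) : ∀ x ∈ L, x.2.natAbs ≤ sz L := by
  intro x hx
  unfold sz
  exact List.single_le_sum (fun _ _ => Nat.zero_le _) _ (List.mem_map.2 ⟨x, hx, rfl⟩)

theorem Syl.left {L L' : SL} (h : Syl (L ++ L')) : Syl L :=
  ⟨(List.isChain_append.1 h.1).1, fun x hx => h.2 x (List.mem_append_left _ hx)⟩

theorem Syl.tail {x : Bool × ℤ} {L : SL} (h : Syl (x :: L)) : Syl L :=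
  ⟨(List.isChain_cons.1 h.1).2, fun y hy => h.2 y (List.mem_cons_of_mem _ hy)⟩

/-- the syllables of a reduced word -/
theorem syl_exists (w : List (Bool × Bool)) (hw : FreeGroup.IsReduced w) :
    ∃ L : SL, Syl L ∧ el L = FreeGroup.mk w ∧ sz L ≤ w.length ∧
      L.head?.map Prod.fst = w.head?.map Prod.fst ∧
      L.getLast?.map Prod.fst = w.getLast?.map Prod.fst ∧
      ∀ b e, w.head? = some (b, e) → ∃ k r, L = (b, k) :: r ∧ (if e then 0 < k else k < 0) := by
  induction w with
  | nil =>
    refine ⟨[], ⟨List.isChain_nil, by simp⟩, by simp [el, FreeGroup.one_eq_mk], by simp [sz], rfl, rfl, ?_⟩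
    intro b e h
    simp at h
  | cons p w ih =>
    obtain ⟨b, e⟩ := p
    have hw' : FreeGroup.IsReduced w := (List.isChain_cons.1 hw).2
    obtain ⟨L, hL, he, hs, hh, hl, hk⟩ := ih hw'
    set d : ℤ := if e then 1 else -1 with hd
    have hmk : FreeGroup.mk ((b, e) :: w) = FreeGroup.of b ^ d * FreeGroup.mk w := by
      have h1 : FreeGroup.mk ((b, e) :: w) = FreeGroup.mk [(b, e)] * FreeGroup.mk w := by
        rw [FreeGroup.mul_mk]; rfl
      rw [h1]
      congr 1
      cases e
      · rw [hd]
        simp [FreeGroup.of]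
        rfl
      · rw [hd]
        simp [FreeGroup.of]
    have hd0 : d ≠ 0 := by rw [hd]; split_ifs <;> norm_num
    have hd1 : d.natAbs = 1 := by rw [hd]; split_ifs <;> rfl
    rcases w with _ | ⟨⟨b', e'⟩, w⟩
    · -- the rest is empty
      have hL0 : L = [] := by
        cases L with
        | nil => rfl
        | cons x L => simp at hh
      subst hL0
      refine ⟨[(b, d)], ⟨List.isChain_singleton _, ?_⟩, ?_, ?_, rfl, rfl, ?_⟩
      · intro x hx
        rw [List.mem_singleton] at hx
        subst hx
        exact hd0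
      · rw [hmk, ← he]
        simp [el]
      · simp [sz, hd1]
      · intro b1 e1 h
        simp only [List.head?_cons, Option.some.injEq, Prod.mk.injEq] at h
        obtain ⟨rfl, rfl⟩ := h
        refine ⟨d, [], rfl, ?_⟩
        rw [hd]
        split_ifs <;> norm_num
    · obtain ⟨k, r, hLr, hsign⟩ := hk b' e' rfl
      subst hLr
      by_cases hbb : b = b'
      · -- same letter
        subst hbb
        have hee : e = e' := by
          have := (List.isChain_cons_cons.1 hw).1
          exact this rfl
        subst hee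
        have hkd : (if e then 0 < d + k else d + k < 0) ∧ (d + k).natAbs = 1 + k.natAbs ∧ d + k ≠ 0 := by
          cases e
          · simp only [Bool.false_eq_true, if_false] at hsign hd ⊢
            rw [hd]
            omega
          · simp only [if_true] at hsign hd ⊢
            rw [hd]
            omega
        refine ⟨(b, d + k) :: r, ⟨?_, ?_⟩, ?_, ?_, rfl, ?_, ?_⟩
        · have := List.isChain_cons.1 hL.1
          exact List.isChain_cons.2 this
        · intro x hx
          rcases List.mem_cons.1 hx with rfl | hx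
          · exact hkd.2.2
          · exact hL.2 x (List.mem_cons_of_mem _ hx)
        · rw [hmk, ← he]
          simp [el, zpow_add, mul_assoc]
        · have h1 : sz ((b, d + k) :: r) = (d + k).natAbs + sz r := by simp [sz]
          have h2 : sz ((b, k) :: r) = k.natAbs + sz r := by simp [sz]
          rw [h1, hkd.2.1]
          rw [h2] at hs
          simp only [List.length_cons] at hs ⊢
          omega
        · rw [List.getLast?_cons_cons, ← hl]
          cases r with
          | nil => rfl
          | cons y r => rw [List.getLast?_cons_cons, List.getLast?_cons_cons]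
        · intro b1 e1 h
          simp only [List.head?_cons, Option.some.injEq, Prod.mk.injEq] at h
          obtain ⟨rfl, rfl⟩ := h
          exact ⟨d + k, r, rfl, hkd.1⟩
      · refine ⟨(b, d) :: (b', k) :: r, ⟨?_, ?_⟩, ?_, ?_, rfl, ?_, ?_⟩
        · exact List.isChain_cons_cons.2 ⟨hbb, hL.1⟩
        · intro x hx
          rcases List.mem_cons.1 hx with rfl | hx
          · exact hd0
          · exact hL.2 x hx
        · rw [hmk, ← he]
          simp [el]
        · have h1 : sz ((b, d) :: (b', k) :: r) = d.natAbs + sz ((b', k) :: r) := by simp [sz]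
          rw [h1, hd1]
          simp only [List.length_cons] at hs ⊢
          omega
        · rw [List.getLast?_cons_cons, List.getLast?_cons_cons, hl]
        · intro b1 e1 h
          simp only [List.head?_cons, Option.some.injEq, Prod.mk.injEq] at h
          obtain ⟨rfl, rfl⟩ := h
          refine ⟨d, _, rfl, ?_⟩
          rw [hd]
          split_ifs <;> norm_num

theorem S1_iff (g : F2) : S1 g ↔ g.toWord.head?.map Prod.fst = some true := by
  unfold S1
  cases h : g.toWord.head? with
  | none => simp
  | some p =>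
    obtain ⟨b, e⟩ := p
    simp

theorem S1_inv_iff (g : F2) : S1 g⁻¹ ↔ g.toWord.getLast?.map Prod.fst = some true := by
  rw [S1_iff, FreeGroup.toWord_inv]
  have h : (FreeGroup.invRev g.toWord).head?.map Prod.fst = g.toWord.getLast?.map Prod.fst := by
    unfold FreeGroup.invRev
    rw [List.head?_reverse, List.getLast?_map, Option.map_map]
    rfl
  rw [h]

/-- the syllables of a group element -/
theorem syl_group (g : F2) : ∃ L : SL, Syl L ∧ el L = g ∧ sz L ≤ g.norm ∧
    (L.head?.map Prod.fst = some true ↔ S1 g) ∧ (L.getLast?.map Prod.fst = some true ↔ S1 g⁻¹) ∧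
    (g ≠ 1 → L ≠ []) := by
  obtain ⟨L, hL, he, hs, hh, hl, -⟩ := syl_exists g.toWord FreeGroup.isReduced_toWord
  rw [FreeGroup.mk_toWord] at he
  refine ⟨L, hL, he, hs, ?_, ?_, ?_⟩
  · rw [hh, S1_iff]
  · rw [hl, S1_inv_iff]
  · rintro hg rfl
    exact hg (he.symm.trans (by simp [el]))

/-- split off the last syllable if it is of the second type -/
theorem split_last (L : SL) (hL : Syl L) : ∃ (L1 : SL) (k : ℤ), Syl L1 ∧
    el L = el L1 * FreeGroup.of false ^ k ∧ sz L1 + k.natAbs ≤ sz L ∧
    (∀ x ∈ L1.getLast?, x.1 = true) ∧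
    (L1.head?.map Prod.fst = some true ↔ L.head?.map Prod.fst = some true) := by
  rcases List.eq_nil_or_concat L with rfl | ⟨L0, ⟨b, k⟩, rfl⟩
  · exact ⟨[], 0, hL, by simp [el], by simp [sz], by simp, Iff.rfl⟩
  · rw [List.concat_eq_append] at hL ⊢
    cases b with
    | false =>
      refine ⟨L0, k, hL.left, ?_, ?_, ?_, ?_⟩
      · rw [el_append]; simp [el]
      · rw [sz_append]; simp [sz]
      · intro x hx
        have h := (List.isChain_append.1 hL.1).2.2 x hx (false, k) (by simp)
        simpa using h
      · cases L0 with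
        | nil => simp
        | cons y L0 => simp
    | true =>
      refine ⟨L0 ++ [(true, k)], 0, hL, by simp, by simp, ?_, Iff.rfl⟩
      intro x hx
      rw [List.getLast?_append] at hx
      simp at hx
      rw [← hx]

/-- split off the first syllable if it is of the second type -/
theorem split_head (L : SL) (hL : Syl L) : ∃ (L1 : SL) (k : ℤ), Syl L1 ∧
    el L = FreeGroup.of false ^ k * el L1 ∧ sz L1 + k.natAbs ≤ sz L ∧
    (∀ x ∈ L1.head?, x.1 = true) ∧
    (L1.getLast?.map Prod.fst = some true ↔ L.getLast?.map Prod.fst = some true) := by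
  rcases L with _ | ⟨⟨b, k⟩, L0⟩
  · exact ⟨[], 0, hL, by simp [el], by simp [sz], by simp, Iff.rfl⟩
  · cases b with
    | false =>
      refine ⟨L0, k, hL.tail, ?_, ?_, ?_, ?_⟩
      · simp [el]
      · simp only [sz, List.map_cons, List.sum_cons]
        omega
      · intro x hx
        have h := (List.isChain_cons.1 hL.1).1 x hx
        simpa using h
      · cases L0 with
        | nil => simp
        | cons y L0 => rw [List.getLast?_cons_cons]
    | true =>
      refine ⟨(true, k) :: L0, 0, hL, by simp, by simp, ?_, Iff.rfl⟩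
      intro x hx
      simp at hx
      rw [← hx]

section

variable {A Q R : Type} [CStarAlgebra A] [Ring Q] [StarRing Q] [Algebra ℂ Q]
  [Ring R] [StarRing R] [Algebra ℂ R]

/-- the letter of a syllable -/
def lw (u : unitary Q) (a : unitary R) (p : Bool × ℤ) : Lt Q R :=
  if p.1 then Lt.q ((u ^ p.2 : unitary Q) : Q) else Lt.r ((a ^ p.2 : unitary R) : R)

theorem lw_isQ (u : unitary Q) (a : unitary R) (p : Bool × ℤ) : (lw u a p).isQ = p.1 := by
  obtain ⟨b, k⟩ := p
  cases b <;> rfl

theorem lw_isS (u : unitary Q) (a : unitary R) (p : Bool × ℤ) : (lw u a p).isS = false := by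
  obtain ⟨b, k⟩ := p
  cases b <;> rfl

theorem um_zpow (π : Q →⋆ₐ[ℂ] A) (u : unitary Q) (k : ℤ) :
    ((um π u ^ k : unitary A) : A) = π ((u ^ k : unitary Q) : Q) := by
  let f : unitary Q →* unitary A :=
    { toFun := um π
      map_one' := Subtype.ext (map_one π)
      map_mul' := fun v w => Subtype.ext (map_mul π (v : Q) (w : Q)) }
  have h1 : f (u ^ k) = f u ^ k := map_zpow f u k
  exact (congrArg Subtype.val h1).symm

theorem GG_of (π : Q →⋆ₐ[ℂ] A) (ρ : R →⋆ₐ[ℂ] A) (s : A) (u : unitary Q) (a : unitary R)
    (p : Bool × ℤ) : (GG π ρ u a (FreeGroup.of p.1 ^ p.2) : A) = vl π ρ s (lw u a p) := by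
  obtain ⟨b, k⟩ := p
  rw [map_zpow]
  unfold GG
  rw [FreeGroup.lift_apply_of]
  cases b
  · simp only [Bool.false_eq_true, if_false, lw]
    rw [um_zpow]
    rfl
  · simp only [if_true, lw]
    rw [um_zpow]
    rfl

theorem ev_map (π : Q →⋆ₐ[ℂ] A) (ρ : R →⋆ₐ[ℂ] A) (s : A) (u : unitary Q) (a : unitary R)
    (L : SL) : ev (vl π ρ s) (L.map (lw u a)) = (GG π ρ u a (el L) : A) := by
  induction L with
  | nil => simp [el]
  | cons p L ih =>
    have h : el (p :: L) = FreeGroup.of p.1 ^ p.2 * el L := by simp [el]
    rw [List.map_cons, ev_cons, ih, h, map_mul, Submonoid.coe_mul, GG_of π ρ s]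

theorem alt_map (u : unitary Q) (a : unitary R) (L : SL) (hL : Syl L) : Alt (L.map (lw u a)) := by
  constructor
  · intro z hz
    obtain ⟨p, -, rfl⟩ := List.mem_map.1 hz
    exact lw_isS u a p
  · rw [List.isChain_map]
    refine hL.1.imp fun x y hxy => ?_
    rw [lw_isQ, lw_isQ]
    exact hxy

theorem cen_map {τ : A →ₗ[ℂ] ℂ} {π : Q →⋆ₐ[ℂ] A} {ρ : R →⋆ₐ[ℂ] A} {s : A} {u : unitary Q}
    {a : unitary R} {X : R} {p : ℕ} (hG : Gad τ π ρ u a X p) (L : SL) (hL : Syl L) (hp : sz L < p) :
    ∀ z ∈ L.map (lw u a), τ (vl π ρ s z) = 0 := by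
  intro z hz
  obtain ⟨⟨b, k⟩, hk, rfl⟩ := List.mem_map.1 hz
  have hk0 : k ≠ 0 := hL.2 _ hk
  have hkp : k.natAbs < p := lt_of_le_of_lt (sz_mem L _ hk) hp
  cases b
  · simp only [lw, Bool.false_eq_true, if_false, vl_r]
    have h := hG.ha k hk0 hkp 0
    simpa [Uc] using h
  · simp only [lw, if_true, vl_q]
    exact hG.hu k hk0

theorem hq_map (u : unitary Q) (a : unitary R) (L : SL) :
    hq (L.map (lw u a)) ↔ L.head?.map Prod.fst = some true := by
  unfold hq
  rw [List.head?_map, Option.map_map]
  have : (Lt.isQ ∘ lw u a) = Prod.fst := by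
    funext p
    exact lw_isQ u a p
  rw [this]

theorem lq_map (u : unitary Q) (a : unitary R) (L : SL) :
    lq (L.map (lw u a)) ↔ L.getLast?.map Prod.fst = some true := by
  unfold lq
  rw [List.getLast?_map, Option.map_map]
  have : (Lt.isQ ∘ lw u a) = Prod.fst := by
    funext p
    exact lw_isQ u a p
  rw [this]

end

theorem t_MID : S_MID := by
  intro A Q R _ _ _ _ _ _ _ τ π ρ s u a X p hτ hG
  constructor
  · intro g hg
    obtain ⟨L, hL, he, hs, h1, h2, h3⟩ := syl_group g
    refine ⟨L.map (lw u a), ⟨alt_map u a L hL, cen_map hG L hL (by omega)⟩, ?_, ?_, ?_, ?_⟩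
    · rw [ev_map, he]
    · rw [hq_map, h1]
    · rw [lq_map, h2]
    · intro hg1 h
      exact h3 hg1 (List.map_eq_nil_iff.1 h)
  · intro g g' m hgg hm
    obtain ⟨L, hL, he, hs, h1, -, -⟩ := syl_group g
    obtain ⟨L', hL', he', hs', -, h2', -⟩ := syl_group g'
    obtain ⟨L1, k, hL1, hel, hsz, hlast, hhead⟩ := split_last L hL
    obtain ⟨L2, l, hL2, hel', hsz', hhead', hlast'⟩ := split_head L' hL'
    set z : Lt Q R := Lt.r (((a ^ k : unitary R) : R) * Uc X m * ((a ^ l : unitary R) : R)) with hz
    have hzQ : z.isQ = false := rfl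
    have hzS : z.isS = false := rfl
    have hzc : τ (vl π ρ s z) = 0 := by
      rw [hz, vl_r, map_mul ρ, map_mul ρ, mul_assoc, hτ.comm, mul_assoc, ← map_mul ρ, ← map_mul ρ]
      have hal : ((a ^ l : unitary R) : R) * ((a ^ k : unitary R) : R) =
          ((a ^ (l + k) : unitary R) : R) := by
        rw [zpow_add]
        rfl
      rw [hal]
      by_cases hlk : l + k = 0
      · rw [hlk]
        simpa using hG.hX m hm
      · exact hG.ha (l + k) hlk (by omega) m
    refine ⟨L1.map (lw u a) ++ z :: L2.map (lw u a), ⟨⟨?_, ?_⟩, ?_⟩, ?_, ?_, ?_, by simp⟩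
    · intro y hy
      rcases List.mem_append.1 hy with hy | hy
      · exact (alt_map u a L1 hL1).1 y hy
      · rcases List.mem_cons.1 hy with rfl | hy
        · exact hzS
        · exact (alt_map u a L2 hL2).1 y hy
    · rw [List.isChain_append]
      refine ⟨(alt_map u a L1 hL1).2, ?_, ?_⟩
      · rw [List.isChain_cons]
        refine ⟨?_, (alt_map u a L2 hL2).2⟩
        intro y hy
        rw [List.head?_map, Option.mem_def, Option.map_eq_some_iff] at hy
        obtain ⟨x, hx, rfl⟩ := hy
        rw [lw_isQ, hhead' x hx, hzQ]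
        decide
      · intro x hx y hy
        rw [List.getLast?_map, Option.mem_def, Option.map_eq_some_iff] at hx
        obtain ⟨x', hx', rfl⟩ := hx
        rw [List.head?_cons, Option.mem_def, Option.some.injEq] at hy
        subst hy
        rw [lw_isQ, hlast x' hx', hzQ]
        decide
    · intro y hy
      rcases List.mem_append.1 hy with hy | hy
      · exact cen_map hG L1 hL1 (by omega) y hy
      · rcases List.mem_cons.1 hy with rfl | hy
        · exact hzc
        · exact cen_map hG L2 hL2 (by omega) y hy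
    · rw [ev_append, ev_cons, ev_map, ev_map, ← he, ← he', hel, hel', map_mul, map_mul,
        Submonoid.coe_mul, Submonoid.coe_mul, hz, vl_r, map_mul, map_mul]
      have e1 : (GG π ρ u a (FreeGroup.of false ^ k) : A) = ρ ((a ^ k : unitary R) : R) :=
        GG_of π ρ s u a (false, k)
      have e2 : (GG π ρ u a (FreeGroup.of false ^ l) : A) = ρ ((a ^ l : unitary R) : R) :=
        GG_of π ρ s u a (false, l)
      rw [e1, e2]
      simp only [mul_assoc]
    · rw [← h1, ← hhead]
      cases L1 with
      | nil =>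
        unfold hq
        simp [hzQ]
      | cons x L1 =>
        unfold hq
        simp [lw_isQ]
    · rw [← h2', ← hlast']
      unfold lq
      rw [List.getLast?_append]
      cases hL2e : L2 with
      | nil => simp [hzQ]
      | cons x L3 =>
        have e1 : (z :: List.map (lw u a) (x :: L3)).getLast? = (List.map (lw u a) (x :: L3)).getLast? := by
          rw [List.map_cons, List.getLast?_cons_cons]
        rw [e1, List.getLast?_map]
        cases hg : (x :: L3).getLast? with
        | none => simp at hg
        | some y => simp [lw_isQ]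

end Pool.Agent.H923R2.FP.T_MID
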